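import Pool.Agent.K4H49.IR.Spec

set_option autoImplicit false

open Finset

namespace Pool.Agent.K4H43.IR

open Pool.Agent.K4H49.IR

variable {V : Type} [Fintype V] [DecidableEq V] (G : SimpleGraph V) [DecidableRel G.Adj]

/-- the star with centre `c` and leaves `A` -/
def st (c : V) (A : Finset V) : G.Subgraph where
  verts := {v | v = c ∨ v ∈ A}
  Adj u v := G.Adj u v ∧ ((u = c ∧ v ∈ A) ∨ (v = c ∧ u ∈ A))
  adj_sub h := h.1
  edge_vert := by
    rintro u v ⟨h, (⟨h1, h2⟩ | ⟨h1, h2⟩)⟩
    · exact Or.inl h1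
    · exact Or.inr h2
  symm := ⟨fun u v h => ⟨h.1.symm, h.2.symm⟩⟩

variable {G}

lemma count_mem (s : Finset V) (x : V) (hx : x ∈ s) (n : ℕ) (hn : 1 ≤ n) :
    ((powersetCard n s).filter (fun A => x ∈ A)).card = (s.card - 1).choose (n - 1) := by
  rw [← card_erase_of_mem hx, ← card_powersetCard]
  refine Finset.card_bij' (fun A _ => A.erase x) (fun B _ => insert x B) ?_ ?_ ?_ ?_
  · intro A hA
    rw [mem_filter, mem_powersetCard] at hA
    rw [mem_powersetCard]
    exact ⟨erase_subset_erase _ hA.1.1, by rw [card_erase_of_mem hA.2, hA.1.2]⟩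
  · intro B hB
    rw [mem_powersetCard] at hB
    have hxB : x ∉ B := fun h => (mem_erase.1 (hB.1 h)).1 rfl
    rw [mem_filter, mem_powersetCard]
    refine ⟨⟨?_, ?_⟩, mem_insert_self _ _⟩
    · exact insert_subset hx (hB.1.trans (erase_subset _ _))
    · rw [card_insert_of_notMem hxB, hB.2]; omega
  · intro A hA
    rw [mem_filter] at hA
    exact insert_erase hA.2
  · intro B hB
    rw [mem_powersetCard] at hB
    have hxB : x ∉ B := fun h => (mem_erase.1 (hB.1 h)).1 rfl
    exact erase_insert hxB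

/-- the pairs (centre, leaves) through `x` -/
def T (G : SimpleGraph V) [DecidableRel G.Adj] (n : ℕ) (x : V) : Finset (V × Finset V) :=
  (powersetCard n (G.neighborFinset x)).image (fun A => (x, A)) ∪
    (G.neighborFinset x).biUnion fun c =>
      ((powersetCard n (G.neighborFinset c)).filter (fun A => x ∈ A)).image (fun A => (c, A))

lemma mem_T (n : ℕ) (x c : V) (A : Finset V) :
    (c, A) ∈ T G n x ↔ (A ⊆ G.neighborFinset c ∧ A.card = n) ∧ (x = c ∨ x ∈ A) := by
  unfold T
  rw [mem_union, mem_image, mem_biUnion]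
  constructor
  · rintro (⟨B, hB, h⟩ | ⟨d, hd, h⟩)
    · rw [mem_powersetCard] at hB
      rw [Prod.mk.injEq] at h
      obtain ⟨rfl, rfl⟩ := h
      exact ⟨hB, Or.inl rfl⟩
    · rw [mem_image] at h
      obtain ⟨B, hB, h⟩ := h
      rw [mem_filter, mem_powersetCard] at hB
      rw [Prod.mk.injEq] at h
      obtain ⟨rfl, rfl⟩ := h
      exact ⟨hB.1, Or.inr hB.2⟩
  · rintro ⟨h, (rfl | hx)⟩
    · exact Or.inl ⟨A, mem_powersetCard.2 h, rfl⟩
    · refine Or.inr ⟨c, ?_, ?_⟩
      · have := h.1 hx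
        rw [SimpleGraph.mem_neighborFinset] at this ⊢
        exact this.symm
      · rw [mem_image]
        exact ⟨A, mem_filter.2 ⟨mem_powersetCard.2 h, hx⟩, rfl⟩

lemma card_T (n : ℕ) (hn : 1 ≤ n) (x : V) : (T G n x).card = sn G n x := by
  unfold T sn
  rw [card_union_of_disjoint, card_image_of_injective, card_powersetCard, G.card_neighborFinset_eq_degree,
    card_biUnion]
  · congr 1
    refine Finset.sum_congr rfl fun c hc => ?_
    rw [card_image_of_injective, count_mem _ _ _ _ hn, G.card_neighborFinset_eq_degree]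
    · rw [SimpleGraph.mem_neighborFinset] at hc ⊢
      exact hc.symm
    · intro A B h
      exact (Prod.mk.injEq _ _ _ _ ▸ h).2
  · intro c hc d hd hcd
    rw [Function.onFun, Finset.disjoint_left]
    intro p hp hp'
    rw [mem_image] at hp hp'
    obtain ⟨A, _, rfl⟩ := hp
    obtain ⟨B, _, h⟩ := hp'
    rw [Prod.mk.injEq] at h
    exact hcd h.1.symm
  · intro A B h
    exact (Prod.mk.injEq _ _ _ _ ▸ h).2
  · rw [Finset.disjoint_left]
    intro p hp hp'
    rw [mem_image] at hp
    obtain ⟨A, _, rfl⟩ := hp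
    rw [mem_biUnion] at hp'
    obtain ⟨c, hc, h⟩ := hp'
    rw [mem_image] at h
    obtain ⟨B, _, h⟩ := h
    rw [Prod.mk.injEq] at h
    rw [h.1, SimpleGraph.mem_neighborFinset] at hc
    exact G.loopless.irrefl _ hc

lemma adj_iff {c : V} {A : Finset V} (hA : A ⊆ G.neighborFinset c) (u v : V) :
    (st G c A).Adj u v ↔ (u = c ∧ v ∈ A) ∨ (v = c ∧ u ∈ A) := by
  constructor
  · exact fun h => h.2
  · intro h
    refine ⟨?_, h⟩
    rcases h with ⟨rfl, h⟩ | ⟨rfl, h⟩
    · exact (SimpleGraph.mem_neighborFinset _ _ _).1 (hA h)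
    · exact ((SimpleGraph.mem_neighborFinset _ _ _).1 (hA h)).symm

lemma not_mem {c : V} {A : Finset V} (hA : A ⊆ G.neighborFinset c) : c ∉ A := by
  intro h
  exact G.loopless.irrefl _ ((SimpleGraph.mem_neighborFinset _ _ _).1 (hA h))

lemma st_inj {c c' : V} {A A' : Finset V} (hA : A ⊆ G.neighborFinset c)
    (hA' : A' ⊆ G.neighborFinset c') (h2 : 2 ≤ A.card) (h : st G c A = st G c' A') :
    c = c' ∧ A = A' := by
  have hadj : ∀ u v, ((u = c ∧ v ∈ A) ∨ (v = c ∧ u ∈ A)) ↔
      ((u = c' ∧ v ∈ A') ∨ (v = c' ∧ u ∈ A')) := by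
    intro u v
    rw [← adj_iff hA, ← adj_iff hA', h]
  have hc := not_mem hA
  have hc' := not_mem hA'
  have hcc : c = c' := by
    by_contra hne
    obtain ⟨a, ha, b, hb, hab⟩ := Finset.one_lt_card.1 h2
    have h1 := (hadj c a).1 (Or.inl ⟨rfl, ha⟩)
    have h3 := (hadj c b).1 (Or.inl ⟨rfl, hb⟩)
    rcases h1 with h1 | h1
    · exact hne h1.1
    · rcases h3 with h3 | h3
      · exact hne h3.1
      · exact hab (h1.1.trans h3.1.symm)
  subst hcc
  refine ⟨rfl, ?_⟩
  ext v
  constructor
  · intro hv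
    rcases (hadj c v).1 (Or.inl ⟨rfl, hv⟩) with h1 | h1
    · exact h1.2
    · exact absurd h1.2 hc'
  · intro hv
    rcases (hadj c v).2 (Or.inl ⟨rfl, hv⟩) with h1 | h1
    · exact h1.2
    · exact absurd h1.2 hc

/-- the isomorphism -/
lemma st_iso {n : ℕ} {c : V} {A : Finset V} (hA : A ⊆ G.neighborFinset c) (hn : A.card = n) :
    Nonempty (star n ≃g (st G c A).coe) := by
  classical
  have hc := not_mem hA
  let e : Fin n ≃ {a // a ∈ A} := (Fin.castOrderIso hn.symm).toEquiv.trans A.equivFin.symm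
  have hsurj : ∀ v : (st G c A).verts, v.1 ≠ c → v.1 ∈ A := fun v hv => v.2.resolve_left hv
  let F : Fin 1 ⊕ Fin n → (st G c A).verts :=
    Sum.elim (fun _ => ⟨c, Or.inl rfl⟩) (fun i => ⟨(e i).1, Or.inr (e i).2⟩)
  have hbij : Function.Bijective F := by
    constructor
    · rintro (i | i) (j | j) h
      · congr 1; exact Subsingleton.elim _ _
      · have h1 : c = (e j).1 := congrArg Subtype.val h
        exact absurd (h1 ▸ (e j).2) hc
      · have h1 : (e i).1 = c := congrArg Subtype.val h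
        exact absurd (h1 ▸ (e i).2) hc
      · have h1 : (e i).1 = (e j).1 := congrArg (fun v : (st G c A).verts => v.1) h
        rw [e.injective (Subtype.ext h1)]
    · intro v
      by_cases hv : v.1 = c
      · exact ⟨Sum.inl 0, Subtype.ext hv.symm⟩
      · refine ⟨Sum.inr (e.symm ⟨v.1, hsurj v hv⟩), Subtype.ext ?_⟩
        simp [F]
  refine ⟨⟨Equiv.ofBijective F hbij, ?_⟩⟩
  rintro (i | i) (j | j)
  · simp only [Equiv.ofBijective_apply, SimpleGraph.Subgraph.coe_adj, adj_iff hA, F, Sum.elim_inl]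
    simp [hc, completeBipartiteGraph]
  · simp only [Equiv.ofBijective_apply, SimpleGraph.Subgraph.coe_adj, adj_iff hA, F, Sum.elim_inl, Sum.elim_inr]
    simp [completeBipartiteGraph]
  · simp only [Equiv.ofBijective_apply, SimpleGraph.Subgraph.coe_adj, adj_iff hA, F, Sum.elim_inl, Sum.elim_inr]
    simp [completeBipartiteGraph]
  · simp only [Equiv.ofBijective_apply, SimpleGraph.Subgraph.coe_adj, adj_iff hA, F, Sum.elim_inr]
    have h1 : (e i).1 ≠ c := fun h => hc (h ▸ (e i).2)
    have h2 : (e j).1 ≠ c := fun h => hc (h ▸ (e j).2)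
    simp [completeBipartiteGraph, h1, h2]

lemma exists_st {n : ℕ} {H : G.Subgraph} (e : star n ≃g H.coe) :
    ∃ (c : V) (A : Finset V), A ⊆ G.neighborFinset c ∧ A.card = n ∧ H = st G c A := by
  classical
  let c : V := (e (Sum.inl 0)).1
  let g : Fin n → V := fun i => (e (Sum.inr i)).1
  have hg : Function.Injective g := by
    intro i j h
    have := e.injective (Subtype.ext h)
    exact Sum.inr_injective this
  let A : Finset V := univ.image g
  have hHadj : ∀ i, H.Adj c (g i) := by
    intro i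
    have : (Pool.Agent.K4H49.IR.star n).Adj (Sum.inl 0) (Sum.inr i) := by
      simp [completeBipartiteGraph]
    have := e.map_rel_iff.2 this
    exact this
  have hA : A ⊆ G.neighborFinset c := by
    intro a ha
    obtain ⟨i, _, rfl⟩ := mem_image.1 ha
    rw [SimpleGraph.mem_neighborFinset]
    exact (hHadj i).adj_sub
  refine ⟨c, A, hA, ?_, ?_⟩
  · rw [card_image_of_injective _ hg, card_univ, Fintype.card_fin]
  · have hverts : ∀ v, v ∈ H.verts ↔ v = c ∨ v ∈ A := by
      intro v
      constructor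
      · intro hv
        obtain ⟨(i | i), hi⟩ := e.surjective ⟨v, hv⟩
        · left
          have h0 : i = 0 := Subsingleton.elim _ _
          rw [h0] at hi
          exact (congrArg Subtype.val hi).symm
        · right
          exact mem_image.2 ⟨i, mem_univ _, congrArg Subtype.val hi⟩
      · rintro (rfl | h)
        · exact (e (Sum.inl 0)).2
        · obtain ⟨i, _, rfl⟩ := mem_image.1 h
          exact (e (Sum.inr i)).2
    apply SimpleGraph.Subgraph.ext
    · ext v
      exact hverts v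
    · ext u v
      rw [adj_iff hA]
      constructor
      · intro huv
        obtain ⟨a, ha⟩ := e.surjective ⟨u, H.edge_vert huv⟩
        obtain ⟨b, hb⟩ := e.surjective ⟨v, H.edge_vert huv.symm⟩
        have h1 : H.coe.Adj (e a) (e b) := by
          rw [ha, hb]; exact huv
        have h2 := e.map_rel_iff.1 h1
        rcases a with i | i <;> rcases b with j | j
        · simp [completeBipartiteGraph] at h2
        · left
          have h0 : i = 0 := Subsingleton.elim _ _
          rw [h0] at ha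
          exact ⟨(congrArg Subtype.val ha).symm, mem_image.2 ⟨j, mem_univ _, congrArg Subtype.val hb⟩⟩
        · right
          have h0 : j = 0 := Subsingleton.elim _ _
          rw [h0] at hb
          exact ⟨(congrArg Subtype.val hb).symm, mem_image.2 ⟨i, mem_univ _, congrArg Subtype.val ha⟩⟩
        · simp [completeBipartiteGraph] at h2
      · rintro (⟨rfl, h⟩ | ⟨rfl, h⟩)
        · obtain ⟨i, _, rfl⟩ := mem_image.1 h
          exact hHadj i
        · obtain ⟨i, _, rfl⟩ := mem_image.1 h
          exact (hHadj i).symm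

theorem star_count : StStar := by
  intro V _ _ G _ n hn x
  rw [← card_T n (by omega) x]
  have h1 : {H : G.Subgraph | x ∈ H.verts ∧ Nonempty (star n ≃g H.coe)} =
      (fun p : V × Finset V => st G p.1 p.2) '' (T G n x : Set (V × Finset V)) := by
    ext H
    constructor
    · rintro ⟨hx, ⟨e⟩⟩
      obtain ⟨c, A, hA, hc, rfl⟩ := exists_st e
      exact ⟨(c, A), mem_coe.2 ((mem_T n x c A).2 ⟨⟨hA, hc⟩, hx⟩), rfl⟩
    · rintro ⟨⟨c, A⟩, hp, rfl⟩
      have := (mem_T n x c A).1 (mem_coe.1 hp)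
      exact ⟨this.2, st_iso this.1.1 this.1.2⟩
  unfold fdeg
  rw [h1, Set.InjOn.ncard_image, Set.ncard_coe_finset]
  rintro ⟨c, A⟩ hp ⟨c', A'⟩ hp' h
  have h3 := (mem_T n x c A).1 (mem_coe.1 hp)
  have h4 := (mem_T n x c' A').1 (mem_coe.1 hp')
  obtain ⟨rfl, rfl⟩ := st_inj h3.1.1 h4.1.1 (by rw [h3.1.2]; exact hn) h
  rfl

end Pool.Agent.K4H43.IR
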