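import Pool.Agent.K4H43.TilT13

open Set

namespace Pool.Agent.K4H72.Til

lemma t10_norm {e : ℤ × ℤ} (he : e ∈ six) : ‖E e‖ = 1 := by
  have h1 := t13_norm_E_sq e
  have h2 : (e.1 : ℝ) ^ 2 + e.1 * e.2 + (e.2 : ℝ) ^ 2 = 1 := by
    simp only [six, Finset.mem_insert, Finset.mem_singleton] at he
    rcases he with rfl | rfl | rfl | rfl | rfl | rfl <;> norm_num
  rw [h2] at h1
  have := norm_nonneg (E e)
  nlinarith

/-- half lattice points -/
lemma t10_half {e a : ℤ × ℤ} (he : e ∈ six) (h0 : a ≠ 0) (h1 : a ≠ -e) :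
    3 ≤ ‖E (a + a + e)‖ ^ 2 := by
  rw [t13_norm_E_sq]
  obtain ⟨x, y⟩ := a
  obtain ⟨p, q⟩ := e
  simp only [Prod.fst_add, Prod.snd_add]
  have key : (3 : ℤ) ≤ (x + x + p) ^ 2 + (x + x + p) * (y + y + q) + (y + y + q) ^ 2 := by
    by_contra hc
    push Not at hc
    have hx : |x + x + p| ≤ 1 := by
      rw [abs_le]
      constructor <;> nlinarith [sq_nonneg (x + x + p + 2 * (y + y + q)), sq_nonneg (x + x + p)]
    have hy : |y + y + q| ≤ 1 := by
      rw [abs_le]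
      constructor <;> nlinarith [sq_nonneg (2 * (x + x + p) + (y + y + q)), sq_nonneg (y + y + q)]
    rw [abs_le] at hx hy
    have h0' : ¬ (x = 0 ∧ y = 0) := fun h => h0 (Prod.ext h.1 h.2)
    have h1' : ¬ (x = -p ∧ y = -q) := fun h => h1 (Prod.ext h.1 h.2)
    simp only [six, Finset.mem_insert, Finset.mem_singleton, Prod.mk.injEq] at he
    rcases he with ⟨rfl, rfl⟩ | ⟨rfl, rfl⟩ | ⟨rfl, rfl⟩ | ⟨rfl, rfl⟩ | ⟨rfl, rfl⟩ | ⟨rfl, rfl⟩ <;>
    · have hx1 : -1 ≤ x ∧ x ≤ 1 := by omega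
      have hy1 : -1 ≤ y ∧ y ≤ 1 := by omega
      obtain ⟨hx1, hx2⟩ := hx1
      obtain ⟨hy1, hy2⟩ := hy1
      interval_cases x <;> interval_cases y <;> simp_all
  exact_mod_cast key

theorem edge (h : ℝ) (g : ℤ × ℤ → ℂ) (hg : Def1 h g) (v e : ℤ × ℤ) (he : e ∈ six) :
    ShareEdge (cell g v) (cell g (v + e)) := by
  obtain ⟨hh, hg⟩ := hg
  have hEe := t10_norm he
  set d : ℂ := g (v + e) - g v with hd
  have hdE : ‖d - (h : ℂ) * E e‖ ≤ 1 / 20 * h := by
    have := hg (v + e) v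
    rw [add_sub_cancel_left, hEe, mul_one] at this
    exact this
  have hdu : ‖d‖ ≤ 21 / 20 * h := by
    have h1 := norm_add_le (d - (h : ℂ) * E e) ((h : ℂ) * E e)
    rw [sub_add_cancel, norm_mul, Complex.norm_real, Real.norm_eq_abs, abs_of_pos hh, hEe] at h1
    linarith
  have hdl : 19 / 20 * h ≤ ‖d‖ := by
    have h1 := norm_sub_norm_le ((h : ℂ) * E e) d
    rw [norm_mul, Complex.norm_real, Real.norm_eq_abs, abs_of_pos hh, hEe,
      norm_sub_rev ((h : ℂ) * E e) d] at h1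
    linarith
  have hdpos : 0 < ‖d‖ := by linarith [mul_pos (by norm_num : (0 : ℝ) < 19 / 20) hh]
  -- the points of the edge
  have hpt : ∀ t : ℝ, |t| ≤ 1 / 10 → ∀ z : ℂ, z = g v + d / 2 + (t : ℂ) * (Complex.I * d) →
      ‖z - g v‖ = ‖z - g (v + e)‖ ∧ ∀ w, ‖z - g v‖ ≤ ‖z - g w‖ := by
    intro t ht z hz
    have e1 : z - g v = d * ((1 / 2 : ℝ) + (t : ℝ) * Complex.I) := by
      rw [hz]; push_cast; ring
    have e2 : z - g (v + e) = d * ((-(1 / 2) : ℝ) + (t : ℝ) * Complex.I) := by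
      have : g (v + e) = g v + d := by rw [hd]; ring
      rw [hz, this]; push_cast; ring
    have n1 : ‖((1 / 2 : ℝ) : ℂ) + (t : ℝ) * Complex.I‖ = Real.sqrt ((1 / 2) ^ 2 + t ^ 2) :=
      Complex.norm_add_mul_I _ _
    have n2 : ‖((-(1 / 2) : ℝ) : ℂ) + (t : ℝ) * Complex.I‖ = Real.sqrt ((-(1 / 2)) ^ 2 + t ^ 2) :=
      Complex.norm_add_mul_I _ _
    have heq : ‖z - g v‖ = ‖z - g (v + e)‖ := by
      rw [e1, e2, norm_mul, norm_mul, n1, n2]
      norm_num
    have hle : ‖z - g v‖ ≤ 51 / 100 * ‖d‖ := by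
      rw [e1, norm_mul, n1, mul_comm]
      refine mul_le_mul_of_nonneg_right ?_ (norm_nonneg _)
      rw [Real.sqrt_le_left (by norm_num)]
      have ht2 : t ^ 2 ≤ (1 / 10) ^ 2 := by
        rw [← sq_abs t]
        exact pow_le_pow_left₀ (abs_nonneg _) ht 2
      nlinarith
    refine ⟨heq, fun w => ?_⟩
    by_cases hw0 : w = v
    · rw [hw0]
    by_cases hw1 : w = v + e
    · rw [hw1, heq]
    · have ha0 : v - w ≠ 0 := sub_ne_zero.2 (Ne.symm hw0)
      have ha1 : v - w ≠ -e := by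
        intro h'
        apply hw1
        have : w = v - (v - w) := by abel
        rw [this, h']
        abel
      have h3 := t10_half he ha0 ha1
      have h4 : E (v - w + (v - w) + e) = 2 * (E (v - w) + E e / 2) := by
        rw [t13_E_add, t13_E_add]; ring
      rw [h4, norm_mul, mul_pow] at h3
      have h5 : (86 / 100 : ℝ) ≤ ‖E (v - w) + E e / 2‖ := by
        have h6 : ‖(2 : ℂ)‖ = 2 := by simp
        rw [h6] at h3
        have := norm_nonneg (E (v - w) + E e / 2)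
        nlinarith
      have h7 := hg v w
      have h8 : ‖E (v - w)‖ ≤ ‖E (v - w) + E e / 2‖ + 1 / 2 := by
        have h9 := norm_sub_le (E (v - w) + E e / 2) (E e / 2)
        rw [add_sub_cancel_right, norm_div, hEe] at h9
        simpa using h9
      have h10 : z - g w = (h : ℂ) * (E (v - w) + E e / 2) +
          ((g v - g w - (h : ℂ) * E (v - w)) + (d - (h : ℂ) * E e) / 2 +
            (t : ℂ) * (Complex.I * d)) := by
        rw [hz]; ring
      have h11 : ‖(h : ℂ) * (E (v - w) + E e / 2)‖ = h * ‖E (v - w) + E e / 2‖ := by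
        rw [norm_mul, Complex.norm_real, Real.norm_eq_abs, abs_of_pos hh]
      have h12 : ‖(g v - g w - (h : ℂ) * E (v - w)) + (d - (h : ℂ) * E e) / 2 +
            (t : ℂ) * (Complex.I * d)‖ ≤ 1 / 20 * h * ‖E (v - w)‖ + 1 / 40 * h + 1 / 10 * ‖d‖ := by
        have i1 := norm_add_le ((g v - g w - (h : ℂ) * E (v - w)) + (d - (h : ℂ) * E e) / 2)
          ((t : ℂ) * (Complex.I * d))
        have i2 := norm_add_le (g v - g w - (h : ℂ) * E (v - w)) ((d - (h : ℂ) * E e) / 2)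
        have i3 : ‖(d - (h : ℂ) * E e) / 2‖ ≤ 1 / 40 * h := by
          rw [norm_div]
          have : ‖(2 : ℂ)‖ = 2 := by simp
          rw [this]
          linarith
        have i4 : ‖(t : ℂ) * (Complex.I * d)‖ ≤ 1 / 10 * ‖d‖ := by
          rw [norm_mul, norm_mul, Complex.norm_I, one_mul, Complex.norm_real, Real.norm_eq_abs]
          exact mul_le_mul_of_nonneg_right ht (norm_nonneg _)
        linarith
      have h13 : ‖z - g w‖ ≥ h * ‖E (v - w) + E e / 2‖ -
          (1 / 20 * h * ‖E (v - w)‖ + 1 / 40 * h + 1 / 10 * ‖d‖) := by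
        have i5 := norm_sub_norm_le ((h : ℂ) * (E (v - w) + E e / 2))
          (-((g v - g w - (h : ℂ) * E (v - w)) + (d - (h : ℂ) * E e) / 2 +
            (t : ℂ) * (Complex.I * d)))
        rw [norm_neg, sub_neg_eq_add, ← h10, h11] at i5
        linarith
      have h14 : h * ‖E (v - w)‖ ≤ h * (‖E (v - w) + E e / 2‖ + 1 / 2) :=
        mul_le_mul_of_nonneg_left h8 hh.le
      have h15 : h * (86 / 100) ≤ h * ‖E (v - w) + E e / 2‖ :=
        mul_le_mul_of_nonneg_left h5 hh.le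
      nlinarith
  -- the linear functional
  let l : ℂ →L[ℝ] ℝ := d.re • Complex.reCLM + d.im • Complex.imCLM
  have hl : ∀ z, l z = d.re * z.re + d.im * z.im := by
    intro z
    simp [l]
  have hlz : ∀ z, ‖z - g (v + e)‖ ^ 2 - ‖z - g v‖ ^ 2 =
      2 * (l (g v) - l z) + ‖d‖ ^ 2 := by
    intro z
    have : g (v + e) = g v + d := by rw [hd]; ring
    rw [this, hl, hl, ← Complex.normSq_eq_norm_sq, ← Complex.normSq_eq_norm_sq,
      ← Complex.normSq_eq_norm_sq, Complex.normSq_apply, Complex.normSq_apply,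
      Complex.normSq_apply]
    simp only [Complex.sub_re, Complex.sub_im, Complex.add_re, Complex.add_im]
    ring
  set m : ℂ := g v + d / 2 with hm
  have hm0 := hpt 0 (by norm_num) m (by rw [hm]; simp)
  have hm1 := hpt (1 / 10) (by norm_num [abs_of_pos]) (m + ((1 / 10 : ℝ) : ℂ) * (Complex.I * d)) rfl
  have hmv : m ∈ cell g v := hm0.2
  have hme : m ∈ cell g (v + e) := fun w => by rw [← hm0.1]; exact hm0.2 w
  let B : Set ℂ := cell g v ∩ cell g (v + e)
  have hB : ∀ z, z ∈ B ↔ z ∈ cell g v ∧ ‖z - g v‖ = ‖z - g (v + e)‖ := by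
    intro z
    constructor
    · rintro ⟨h1, h2⟩
      exact ⟨h1, le_antisymm (h1 _) (h2 _)⟩
    · rintro ⟨h1, h2⟩
      exact ⟨h1, fun w => by rw [← h2]; exact h1 w⟩
  have hB' : ∀ z, z ∈ B ↔ z ∈ cell g (v + e) ∧ ‖z - g v‖ = ‖z - g (v + e)‖ := by
    intro z
    constructor
    · rintro ⟨h1, h2⟩
      exact ⟨h2, le_antisymm (h1 _) (h2 _)⟩
    · rintro ⟨h1, h2⟩
      exact ⟨fun w => by rw [h2]; exact h1 w, h1⟩
  have hval : ∀ z, ‖z - g v‖ = ‖z - g (v + e)‖ → l z = l (g v) + ‖d‖ ^ 2 / 2 := by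
    intro z hz
    have := hlz z
    rw [hz] at this
    linarith
  have hval' : ∀ z, l z = l (g v) + ‖d‖ ^ 2 / 2 → ‖z - g v‖ = ‖z - g (v + e)‖ := by
    intro z hz
    have h1 := hlz z
    have h2 : ‖z - g v‖ ^ 2 = ‖z - g (v + e)‖ ^ 2 := by linarith
    exact (sq_eq_sq₀ (norm_nonneg _) (norm_nonneg _)).1 h2
  refine ⟨B, ?_, ?_, ?_, ?_, ?_⟩
  · intro _
    refine ⟨l, ?_⟩
    ext z
    rw [hB]
    constructor
    · rintro ⟨h1, h2⟩
      refine ⟨h1, fun y hy => ?_⟩
      have h3 := hlz y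
      have h4 : ‖y - g v‖ ^ 2 ≤ ‖y - g (v + e)‖ ^ 2 :=
        pow_le_pow_left₀ (norm_nonneg _) (hy (v + e)) 2
      have h5 := hval z h2
      linarith
    · rintro ⟨h1, h2⟩
      refine ⟨h1, hval' z ?_⟩
      have h3 := h2 m hmv
      rw [hval m hm0.1] at h3
      have h4 := hlz z
      have h5 : ‖z - g v‖ ^ 2 ≤ ‖z - g (v + e)‖ ^ 2 :=
        pow_le_pow_left₀ (norm_nonneg _) (h1 (v + e)) 2
      linarith
  · intro _
    refine ⟨-l, ?_⟩
    ext z
    rw [hB']
    constructor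
    · rintro ⟨h1, h2⟩
      refine ⟨h1, fun y hy => ?_⟩
      have h3 := hlz y
      have h4 : ‖y - g (v + e)‖ ^ 2 ≤ ‖y - g v‖ ^ 2 :=
        pow_le_pow_left₀ (norm_nonneg _) (hy v) 2
      have h5 := hval z h2
      simp only [_root_.ContinuousLinearMap.neg_apply]
      linarith
    · rintro ⟨h1, h2⟩
      refine ⟨h1, hval' z ?_⟩
      have h3 := h2 m hme
      simp only [_root_.ContinuousLinearMap.neg_apply] at h3
      rw [hval m hm0.1] at h3
      have h4 := hlz z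
      have h5 : ‖z - g (v + e)‖ ^ 2 ≤ ‖z - g v‖ ^ 2 :=
        pow_le_pow_left₀ (norm_nonneg _) (h1 v) 2
      linarith
  · refine ⟨m, (hB m).2 ⟨hmv, hm0.1⟩, m + ((1 / 10 : ℝ) : ℂ) * (Complex.I * d),
      (hB _).2 ⟨hm1.2, hm1.1⟩, ?_⟩
    intro h'
    have h1 : ((1 / 10 : ℝ) : ℂ) * (Complex.I * d) = 0 := by
      have := h'.symm
      rwa [add_eq_left] at this
    have h2 : ‖((1 / 10 : ℝ) : ℂ) * (Complex.I * d)‖ = 0 := by rw [h1, norm_zero]
    rw [norm_mul, norm_mul, Complex.norm_I, one_mul, Complex.norm_real] at h2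
    norm_num at h2
    rw [h2, norm_zero] at hdpos
    exact lt_irrefl _ hdpos
  · intro h'
    have h1 : g v ∈ cell g v := fun w => by rw [sub_self, norm_zero]; exact norm_nonneg _
    rw [← h', hB] at h1
    have h2 := h1.2
    rw [sub_self, norm_zero, norm_sub_rev] at h2
    rw [hd, ← h2] at hdpos
    exact lt_irrefl _ hdpos
  · intro h'
    have h1 : g (v + e) ∈ cell g (v + e) := fun w => by
      rw [sub_self, norm_zero]; exact norm_nonneg _
    rw [← h', hB] at h1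
    have h2 := h1.2
    rw [sub_self, norm_zero] at h2
    rw [hd, h2] at hdpos
    exact lt_irrefl _ hdpos

end Pool.Agent.K4H72.Til
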