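import Pool.Agent.K4H43.TilT4

open Set

namespace Pool.Agent.K4H72.Til

lemma t13_E_sub (v w : ℤ × ℤ) : E (v - w) = E v - E w := by
  simp only [E, Prod.fst_sub, Prod.snd_sub]
  push_cast
  ring

lemma t13_E_add (v w : ℤ × ℤ) : E (v + w) = E v + E w := by
  simp only [E, Prod.fst_add, Prod.snd_add]
  push_cast
  ring

lemma t13_E_zero : E 0 = 0 := by
  simp [E]

lemma t13_norm_E_sq (v : ℤ × ℤ) : ‖E v‖ ^ 2 = (v.1 : ℝ) ^ 2 + v.1 * v.2 + (v.2 : ℝ) ^ 2 := by
  rw [← Complex.normSq_eq_norm_sq, Complex.normSq_apply]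
  have h3 : Real.sqrt 3 * Real.sqrt 3 = 3 := Real.mul_self_sqrt (by norm_num)
  simp only [E, ζ, Complex.add_re, Complex.add_im, Complex.mul_re, Complex.mul_im,
    Complex.intCast_re, Complex.intCast_im]
  nlinarith [h3]

lemma t13_one_le {v : ℤ × ℤ} (hv : v ≠ 0) : 1 ≤ ‖E v‖ := by
  have h1 := t13_norm_E_sq v
  have h2 : (1 : ℤ) ≤ v.1 ^ 2 + v.1 * v.2 + v.2 ^ 2 := by
    have h3 : 0 < v.1 ^ 2 + v.1 * v.2 + v.2 ^ 2 := by
      by_contra hc
      push Not at hc
      apply hv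
      have h4 : v.2 = 0 := by nlinarith [sq_nonneg (2 * v.1 + v.2), sq_nonneg v.2]
      have h5 : v.1 = 0 := by
        rw [h4] at hc
        nlinarith [sq_nonneg v.1]
      exact Prod.ext h5 h4
    omega
  have h6 : (1 : ℝ) ≤ (v.1 : ℝ) ^ 2 + v.1 * v.2 + (v.2 : ℝ) ^ 2 := by exact_mod_cast h2
  rw [← h1] at h6
  have := norm_nonneg (E v)
  nlinarith

theorem deform_of
    (approx : ∀ (F : Set ℂ) (hF : F.Finite) (η : ℝ) (hη : 0 < η),
      ∃ M : ℕ, 0 < M ∧ ∃ φ : AddSubgroup.closure F →+ ℤ × ℤ,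
        ∀ f (hf : f ∈ F), ‖(M : ℂ) * f - E (φ ⟨f, AddSubgroup.subset_closure hf⟩)‖ ≤ η)
    (choice : ∃ c : Set ℂ → ℂ, (∀ A : Set ℂ, A.Finite → A.Nonempty → c A ∈ A) ∧
      ∀ (A : Set ℂ) (t : ℂ), A.Finite → A.Nonempty → c ((fun z => z + t) '' A) = c A + t)
    (near : ∀ (P : Set ℂ) (D : ℝ) (hD : 0 < D) (hdense : ∀ x : ℂ, ∃ p ∈ P, ‖x - p‖ ≤ D / 4)
      (Φ : ℂ → ℤ × ℤ) (M : ℝ) (hM : 1 ≤ M)
      (hΦ : ∀ p ∈ P, ∀ p' ∈ P, ‖p - p'‖ ≤ D → ‖(M : ℂ) * (p - p') - E (Φ p - Φ p')‖ ≤ D / 8),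
      ∀ v : ℤ × ℤ, ∃ p ∈ P, ‖E (Φ p - v)‖ ≤ M * D)
    (P : Set ℂ) (D : ℝ) (hD : 0 < D) (hdense : ∀ x : ℂ, ∃ p ∈ P, ‖x - p‖ ≤ D / 4)
    (hfin : {d : ℂ | ∃ p ∈ P, ∃ p' ∈ P, d = p - p' ∧ ‖d‖ ≤ 8 * D}.Finite) :
    ∃ (h : ℝ) (g : ℤ × ℤ → ℂ), Def1 h g ∧ ∀ R2 : ℝ, ∃ R : ℝ, ∀ x y : ℂ,
      (∀ p : ℂ, ‖p‖ < R → (x + p ∈ P ↔ y + p ∈ P)) →
        ∃ τ : ℤ × ℤ, ∀ v, ‖g v - x‖ ≤ R2 → g (v + τ) = g v + (y - x) := by
  classical
  obtain ⟨p0, hp0, -⟩ := hdense 0
  set F : Set ℂ := {d : ℂ | ∃ p ∈ P, ∃ p' ∈ P, d = p - p' ∧ ‖d‖ ≤ 8 * D} with hFdef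
  -- the small number
  obtain ⟨η, hη, hη1, hη2⟩ : ∃ η : ℝ, 0 < η ∧ η ≤ D / 8 ∧ η * (25 + 8 / D) ≤ 1 / 20 := by
    have hpos : 0 < 20 * (25 + 8 / D) := by positivity
    refine ⟨min (D / 8) (1 / (20 * (25 + 8 / D))), lt_min (by positivity) (by positivity),
      min_le_left _ _, ?_⟩
    have h1 : min (D / 8) (1 / (20 * (25 + 8 / D))) ≤ 1 / (20 * (25 + 8 / D)) := min_le_right _ _
    rw [le_div_iff₀ hpos] at h1
    linarith
  obtain ⟨M, hM0, φ, hφ⟩ := approx F hfin η hη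
  have hM1 : (1 : ℝ) ≤ M := by exact_mod_cast hM0
  have hMpos : (0 : ℝ) < M := by linarith
  have hMC : (M : ℂ) ≠ 0 := by exact_mod_cast hM0.ne'
  have hcl : ∀ p ∈ P, ∀ p' ∈ P, p - p' ∈ AddSubgroup.closure F := by
    refine mem_closure P D hD hdense _ ?_
    intro p hp p' hp' h
    exact AddSubgroup.subset_closure ⟨p, hp, p', hp', rfl, by linarith⟩
  -- the map Φ
  let Φ : ℂ → ℤ × ℤ := fun p => if hp : p - p0 ∈ AddSubgroup.closure F then φ ⟨p - p0, hp⟩ else 0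
  have hΦ1 : ∀ p, ∀ hp : p - p0 ∈ AddSubgroup.closure F, Φ p = φ ⟨p - p0, hp⟩ := by
    intro p hp
    simp only [Φ, dif_pos hp]
  have hΦd : ∀ p ∈ P, ∀ p' ∈ P, ∀ h : p - p' ∈ AddSubgroup.closure F,
      Φ p - Φ p' = φ ⟨p - p', h⟩ := by
    intro p hp p' hp' h
    rw [hΦ1 p (hcl p hp p0 hp0), hΦ1 p' (hcl p' hp' p0 hp0), ← map_sub]
    congr 1
    apply Subtype.ext
    simp
  let u : ℂ → ℂ := fun p => (M : ℂ) * p - E (Φ p)
  have hu8 : ∀ p ∈ P, ∀ p' ∈ P, ‖p - p'‖ ≤ 8 * D → ‖u p - u p'‖ ≤ η := by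
    intro p hp p' hp' h
    have hf : p - p' ∈ F := ⟨p, hp, p', hp', rfl, h⟩
    have h1 := hφ (p - p') hf
    have h2 : u p - u p' = (M : ℂ) * (p - p') -
        E (φ ⟨p - p', AddSubgroup.subset_closure hf⟩) := by
      rw [← hΦd p hp p' hp' (AddSubgroup.subset_closure hf), t13_E_sub]
      simp only [u]
      ring
    rw [h2]
    exact h1
  have hlip := lip P D hD hdense u η hη.le (fun p hp p' hp' h => hu8 p hp p' hp' (by linarith))
  have hnear := near P D hD hdense Φ M hM1 (by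
    intro p hp p' hp' h
    have h1 := hu8 p hp p' hp' (by linarith)
    have h2 : (((M : ℝ) : ℂ)) * (p - p') - E (Φ p - Φ p') = u p - u p' := by
      rw [t13_E_sub]
      simp only [u]
      push_cast
      ring
    rw [h2]
    linarith)
  -- the distance of two points in terms of Φ
  have hdist : ∀ p ∈ P, ∀ p' ∈ P, M * ‖p - p'‖ ≤ 2 * ‖E (Φ p - Φ p')‖ + 2 * η := by
    intro p hp p' hp'
    have h1 := hlip p hp p' hp'
    have h2 : (M : ℂ) * (p - p') = E (Φ p - Φ p') + (u p - u p') := by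
      rw [t13_E_sub]
      simp only [u]
      ring
    have h3 : M * ‖p - p'‖ = ‖(M : ℂ) * (p - p')‖ := by
      rw [norm_mul, Complex.norm_natCast]
    have h4 : M * ‖p - p'‖ ≤ ‖E (Φ p - Φ p')‖ + ‖u p - u p'‖ := by
      rw [h3, h2]
      exact norm_add_le _ _
    have h5 : η * (4 * ‖p - p'‖ / D) ≤ ‖p - p'‖ / 2 := by
      have h6 : 4 * ‖p - p'‖ / D * η ≤ 4 * ‖p - p'‖ / D * (D / 8) :=
        mul_le_mul_of_nonneg_left hη1 (by positivity)
      have h7 : 4 * ‖p - p'‖ / D * (D / 8) = ‖p - p'‖ / 2 := by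
        field_simp
        ring
      linarith
    have h8 : ‖p - p'‖ ≤ M * ‖p - p'‖ := by
      have := norm_nonneg (p - p')
      nlinarith
    nlinarith
  -- the neighbours
  let N : ℤ × ℤ → Set ℂ := fun v => {p | p ∈ P ∧ ‖E (Φ p - v)‖ ≤ M * D}
  have hNne : ∀ v, (N v).Nonempty := by
    intro v
    obtain ⟨p, hp, h⟩ := hnear v
    exact ⟨p, hp, h⟩
  have hNdist : ∀ v w, ∀ p ∈ N v, ∀ p' ∈ N w, ‖p - p'‖ ≤ 5 * D + 2 * ‖E (v - w)‖ := by
    intro v w p hp p' hp'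
    have h1 := hdist p hp.1 p' hp'.1
    have h2 : ‖E (Φ p - Φ p')‖ ≤ 2 * (M * D) + ‖E (v - w)‖ := by
      have h3 : E (Φ p - Φ p') = E (Φ p - v) - E (Φ p' - w) + E (v - w) := by
        simp only [t13_E_sub]
        ring
      rw [h3]
      have h4 := norm_add_le (E (Φ p - v) - E (Φ p' - w)) (E (v - w))
      have h5 := norm_sub_le (E (Φ p - v)) (E (Φ p' - w))
      have h6 := hp.2
      have h7 := hp'.2
      linarith
    have h8 : M * ‖p - p'‖ ≤ M * (5 * D + 2 * ‖E (v - w)‖) := by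
      have h9 : 2 * ‖E (v - w)‖ ≤ M * (2 * ‖E (v - w)‖) := by
        have := norm_nonneg (E (v - w))
        nlinarith
      have h10 : 2 * η ≤ M * D := by nlinarith
      nlinarith
    exact le_of_mul_le_mul_left h8 hMpos
  have hNfin : ∀ v, (N v).Finite := by
    intro v
    obtain ⟨p1, hp1⟩ := hNne v
    refine Set.Finite.subset (hfin.image (fun d => d + p1)) ?_
    intro p hp
    refine ⟨p - p1, ⟨p, hp.1, p1, hp1.1, rfl, ?_⟩, by simp⟩
    have := hNdist v v p hp p1 hp1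
    rw [sub_self, t13_E_zero, norm_zero] at this
    linarith
  obtain ⟨c, hc1, hc2⟩ := choice
  have huN : ∀ v, ∃ p ∈ N v, c (u '' N v) = u p := by
    intro v
    obtain ⟨p, hp, h⟩ := hc1 (u '' N v) ((hNfin v).image _) ((hNne v).image _)
    exact ⟨p, hp, h.symm⟩
  let γ : ℤ × ℤ → ℂ := fun v => E v + c (u '' N v)
  let g : ℤ × ℤ → ℂ := fun v => γ v / M
  have hgγ : ∀ v, (M : ℂ) * g v = γ v := by
    intro v
    simp only [g]
    field_simp
  refine ⟨1 / M, g, ⟨by positivity, ?_⟩, ?_⟩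
  · intro v w
    by_cases hvw : v = w
    · subst hvw
      simp [t13_E_zero]
    · have hE1 : 1 ≤ ‖E (v - w)‖ := t13_one_le (sub_ne_zero.2 hvw)
      obtain ⟨p, hp, hcp⟩ := huN v
      obtain ⟨p', hp', hcp'⟩ := huN w
      have h1 : g v - g w - ((1 / (M : ℝ) : ℝ) : ℂ) * E (v - w) = (u p - u p') / M := by
        simp only [g, γ]
        rw [hcp, hcp', t13_E_sub]
        push_cast
        field_simp
        ring
      have h2 := hlip p hp.1 p' hp'.1
      have h3 := hNdist v w p hp p' hp'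
      have h4 : ‖u p - u p'‖ ≤ 1 / 20 * ‖E (v - w)‖ := by
        have h5 : 4 * ‖p - p'‖ / D ≤ 20 + 8 / D * ‖E (v - w)‖ := by
          have h6 : 4 * ‖p - p'‖ / D ≤ 4 * (5 * D + 2 * ‖E (v - w)‖) / D := by gcongr
          have h7 : 4 * (5 * D + 2 * ‖E (v - w)‖) / D = 20 + 8 / D * ‖E (v - w)‖ := by
            field_simp
            ring
          linarith
        have h8 : 1 + 4 * ‖p - p'‖ / D ≤ (25 + 8 / D) * ‖E (v - w)‖ := by
          nlinarith
        calc ‖u p - u p'‖ ≤ η * (1 + 4 * ‖p - p'‖ / D) := h2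
          _ ≤ η * ((25 + 8 / D) * ‖E (v - w)‖) := mul_le_mul_of_nonneg_left h8 hη.le
          _ = η * (25 + 8 / D) * ‖E (v - w)‖ := by ring
          _ ≤ 1 / 20 * ‖E (v - w)‖ := mul_le_mul_of_nonneg_right hη2 (norm_nonneg _)
      rw [h1, norm_div, Complex.norm_natCast, div_le_iff₀ hMpos]
      have h9 : 1 / 20 * (1 / (M : ℝ)) * ‖E (v - w)‖ * M = 1 / 20 * ‖E (v - w)‖ := by
        field_simp
      linarith
  · intro R2
    refine ⟨R2 + 12 * D + 1, ?_⟩
    intro x y hxy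
    obtain ⟨p1, hp1, hxp1⟩ := hdense x
    have hR2 : ∀ v, ‖g v - x‖ ≤ R2 → 0 ≤ R2 := fun v hv => (norm_nonneg _).trans hv
    by_cases hR : 0 ≤ R2
    swap
    · refine ⟨0, fun v hv => absurd (hR2 v hv) hR⟩
    -- moving points
    have hmove : ∀ p ∈ P, ‖p - x‖ ≤ R2 + 11 * D → p - x + y ∈ P := by
      intro p hp h
      have h1 := (hxy (p - x) (by linarith)).1 (by rwa [add_sub_cancel])
      rwa [add_comm] at h1
    have hmove' : ∀ q ∈ P, ‖q - y‖ ≤ R2 + 11 * D → q - y + x ∈ P := by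
      intro q hq h
      have h1 := (hxy (q - y) (by linarith)).2 (by rwa [add_sub_cancel])
      rwa [add_comm] at h1
    have hp1' : p1 - x + y ∈ P := hmove p1 hp1 (by
      rw [norm_sub_rev]; linarith)
    refine ⟨Φ (p1 - x + y) - Φ p1, fun v hv => ?_⟩
    set τ := Φ (p1 - x + y) - Φ p1 with hτ
    -- Φ of moved points
    have hΦm : ∀ p ∈ P, p - x + y ∈ P → Φ (p - x + y) = Φ p + τ := by
      intro p hp hp'
      have h1 : Φ (p - x + y) - Φ (p1 - x + y) = Φ p - Φ p1 := by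
        rw [hΦd _ hp' _ hp1' (hcl _ hp' _ hp1'), hΦd _ hp _ hp1 (hcl _ hp _ hp1)]
        congr 1
        apply Subtype.ext
        simp only
        ring
      rw [hτ]
      have h2 : Φ (p - x + y) = (Φ (p - x + y) - Φ (p1 - x + y)) + Φ (p1 - x + y) := by abel
      rw [h2, h1]
      abel
    -- points of N v are near to x
    have hNx : ∀ p ∈ N v, ‖p - x‖ ≤ R2 + 2 * D := by
      intro p hp
      obtain ⟨p2, hp2, hcp2⟩ := huN v
      have h1 : (M : ℂ) * (p - g v) = E (Φ p - v) + (u p - u p2) := by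
        rw [mul_sub, hgγ]
        simp only [γ]
        rw [hcp2, t13_E_sub]
        simp only [u]
        ring
      have h2 : ‖p - p2‖ ≤ 8 * D := by
        have := hNdist v v p hp p2 hp2
        rw [sub_self, t13_E_zero, norm_zero] at this
        linarith
      have h3 := hu8 p hp.1 p2 hp2.1 h2
      have h4 : M * ‖p - g v‖ ≤ M * (2 * D) := by
        have h5 : M * ‖p - g v‖ = ‖(M : ℂ) * (p - g v)‖ := by
          rw [norm_mul, Complex.norm_natCast]
        rw [h5, h1]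
        have h6 := norm_add_le (E (Φ p - v)) (u p - u p2)
        have h7 := hp.2
        nlinarith
      have h8 := le_of_mul_le_mul_left h4 hMpos
      have h9 : p - x = (p - g v) + (g v - x) := by ring
      rw [h9]
      have h10 := norm_add_le (p - g v) (g v - x)
      linarith
    -- the neighbours of v + τ
    have hNτ : N (v + τ) = (fun p => p - x + y) '' N v := by
      have hsub : ∀ p ∈ N v, p - x + y ∈ N (v + τ) := by
        intro p hp
        have h1 := hmove p hp.1 (by have := hNx p hp; linarith)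
        refine ⟨h1, ?_⟩
        rw [hΦm p hp.1 h1]
        have h2 : Φ p + τ - (v + τ) = Φ p - v := by abel
        rw [h2]
        exact hp.2
      apply Subset.antisymm
      · intro q hq
        obtain ⟨p2, hp2⟩ := hNne v
        have h1 := hsub p2 hp2
        have h2 := hNdist (v + τ) (v + τ) q hq _ h1
        rw [sub_self, t13_E_zero, norm_zero] at h2
        have h3 := hNx p2 hp2
        have h4 : ‖q - y‖ ≤ R2 + 11 * D := by
          have h5 : q - y = (q - (p2 - x + y)) + (p2 - x) := by ring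
          rw [h5]
          have := norm_add_le (q - (p2 - x + y)) (p2 - x)
          linarith
        have h6 := hmove' q hq.1 h4
        have h7 : q - y + x - x + y = q := by ring
        refine ⟨q - y + x, ⟨h6, ?_⟩, h7⟩
        have h8 := hΦm (q - y + x) h6 (by rw [h7]; exact hq.1)
        rw [h7] at h8
        have h9 : Φ (q - y + x) - v = Φ q - (v + τ) := by
          rw [h8]; abel
        rw [h9]
        exact hq.2
      · rintro _ ⟨p, hp, rfl⟩
        exact hsub p hp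
    have huτ : u '' N (v + τ) = (fun z => z + ((M : ℂ) * (y - x) - E τ)) '' (u '' N v) := by
      rw [hNτ, image_image, image_image]
      refine image_congr fun p hp => ?_
      have h1 := hmove p hp.1 (by have := hNx p hp; linarith)
      simp only [u]
      rw [hΦm p hp.1 h1, t13_E_add]
      ring
    have hcτ := hc2 (u '' N v) ((M : ℂ) * (y - x) - E τ) ((hNfin v).image _) ((hNne v).image _)
    rw [← huτ] at hcτ
    have hγτ : γ (v + τ) = γ v + (M : ℂ) * (y - x) := by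
      simp only [γ]
      rw [hcτ, t13_E_add]
      ring
    simp only [g]
    rw [hγτ]
    field_simp

end Pool.Agent.K4H72.Til
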