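import Pool.Agent.K4H72.Til.Spec

open Set

namespace Pool.Agent.K4H72.Til

lemma lip_step (P : Set ℂ) (D : ℝ) (hD : 0 < D) (hdense : ∀ x : ℂ, ∃ p ∈ P, ‖x - p‖ ≤ D / 4)
    (p p' : ℂ) (h : D < ‖p - p'‖) :
    ∃ p'' ∈ P, ‖p - p''‖ ≤ D ∧ ‖p'' - p'‖ ≤ ‖p - p'‖ - D / 4 := by
  have hpos : 0 < ‖p - p'‖ := hD.trans h
  obtain ⟨p'', hp'', h1⟩ := hdense (p - ((D / 2 / ‖p - p'‖ : ℝ) : ℂ) * (p - p'))
  set s : ℝ := D / 2 / ‖p - p'‖ with hs
  have hs0 : 0 ≤ s := by positivity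
  have hs1 : s ≤ 1 := by
    rw [hs, div_le_one hpos]; linarith
  have hsm : s * ‖p - p'‖ = D / 2 := by
    rw [hs]; field_simp
  refine ⟨p'', hp'', ?_, ?_⟩
  · have h2 : p - p'' = ((s : ℝ) : ℂ) * (p - p') + (p - ((s : ℝ) : ℂ) * (p - p') - p'') := by ring
    rw [h2]
    refine (norm_add_le _ _).trans ?_
    rw [norm_mul, Complex.norm_real, Real.norm_eq_abs, abs_of_nonneg hs0, hsm]
    linarith
  · have h2 : p'' - p' = ((1 - s : ℝ) : ℂ) * (p - p') - (p - ((s : ℝ) : ℂ) * (p - p') - p'') := by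
      push_cast; ring
    rw [h2]
    refine (norm_sub_le _ _).trans ?_
    rw [norm_mul, Complex.norm_real, Real.norm_eq_abs, abs_of_nonneg (by linarith), sub_mul, hsm]
    linarith

theorem lip (P : Set ℂ) (D : ℝ) (hD : 0 < D) (hdense : ∀ x : ℂ, ∃ p ∈ P, ‖x - p‖ ≤ D / 4)
    (u : ℂ → ℂ) (η : ℝ) (hη : 0 ≤ η) (hu : ∀ p ∈ P, ∀ p' ∈ P, ‖p - p'‖ ≤ D → ‖u p - u p'‖ ≤ η) :
    ∀ p ∈ P, ∀ p' ∈ P, ‖u p - u p'‖ ≤ η * (1 + 4 * ‖p - p'‖ / D) := by
  have key : ∀ n : ℕ, ∀ p ∈ P, ∀ p' ∈ P, ‖p - p'‖ ≤ D + n * (D / 4) →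
      ‖u p - u p'‖ ≤ η * (1 + n) := by
    intro n
    induction n with
    | zero =>
      intro p hp p' hp' h
      have := hu p hp p' hp' (by simpa using h)
      simpa using this
    | succ n ih =>
      intro p hp p' hp' h
      push_cast at h ⊢
      by_cases hc : ‖p - p'‖ ≤ D + n * (D / 4)
      · have := ih p hp p' hp' hc
        nlinarith
      · have hn : (0 : ℝ) ≤ (n : ℝ) * (D / 4) := by positivity
        obtain ⟨p'', hp'', h1, h2⟩ := lip_step P D hD hdense p p' (by linarith)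
        have h3 := hu p hp p'' hp'' h1
        have h4 := ih p'' hp'' p' hp' (by linarith)
        have h5 : ‖u p - u p'‖ ≤ ‖u p - u p''‖ + ‖u p'' - u p'‖ := by
          have := norm_add_le (u p - u p'') (u p'' - u p')
          rwa [sub_add_sub_cancel] at this
        linarith
  intro p hp p' hp'
  have hnn := norm_nonneg (p - p')
  have h1 := key ⌈4 * (‖p - p'‖ - D) / D⌉₊ p hp p' hp' (by
    have := Nat.le_ceil (4 * (‖p - p'‖ - D) / D)
    rw [div_le_iff₀ hD] at this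
    linarith)
  refine h1.trans (mul_le_mul_of_nonneg_left ?_ hη)
  have h2 : (⌈4 * (‖p - p'‖ - D) / D⌉₊ : ℝ) ≤ 4 * ‖p - p'‖ / D := by
    by_cases hc : ‖p - p'‖ ≤ D
    · have h0 : ⌈4 * (‖p - p'‖ - D) / D⌉₊ = 0 := by
        rw [Nat.ceil_eq_zero]
        exact div_nonpos_of_nonpos_of_nonneg (by linarith) hD.le
      rw [h0]
      have : 0 ≤ 4 * ‖p - p'‖ / D := by positivity
      exact_mod_cast this
    · have h3 := Nat.ceil_lt_add_one (a := 4 * (‖p - p'‖ - D) / D) (by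
        have : 0 ≤ ‖p - p'‖ - D := by linarith
        positivity)
      have h4 : 4 * (‖p - p'‖ - D) / D = 4 * ‖p - p'‖ / D - 4 := by
        field_simp
      linarith
  linarith

theorem mem_closure (P : Set ℂ) (D : ℝ) (hD : 0 < D) (hdense : ∀ x : ℂ, ∃ p ∈ P, ‖x - p‖ ≤ D / 4)
    (G : AddSubgroup ℂ) (hG : ∀ p ∈ P, ∀ p' ∈ P, ‖p - p'‖ ≤ D → p - p' ∈ G) :
    ∀ p ∈ P, ∀ p' ∈ P, p - p' ∈ G := by
  have key : ∀ n : ℕ, ∀ p ∈ P, ∀ p' ∈ P, ‖p - p'‖ ≤ D + n * (D / 4) → p - p' ∈ G := by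
    intro n
    induction n with
    | zero =>
      intro p hp p' hp' h
      exact hG p hp p' hp' (by simpa using h)
    | succ n ih =>
      intro p hp p' hp' h
      push_cast at h
      by_cases hc : ‖p - p'‖ ≤ D + n * (D / 4)
      · exact ih p hp p' hp' hc
      · have hn : (0 : ℝ) ≤ (n : ℝ) * (D / 4) := by positivity
        obtain ⟨p'', hp'', h1, h2⟩ := lip_step P D hD hdense p p' (by linarith)
        have h3 := hG p hp p'' hp'' h1
        have h4 := ih p'' hp'' p' hp' (by linarith)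
        have h5 := G.add_mem h3 h4
        rwa [sub_add_sub_cancel] at h5
  intro p hp p' hp'
  refine key ⌈4 * (‖p - p'‖ - D) / D⌉₊ p hp p' hp' ?_
  have := Nat.le_ceil (4 * (‖p - p'‖ - D) / D)
  rw [div_le_iff₀ hD] at this
  linarith

end Pool.Agent.K4H72.Til
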